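import Pool.Agent.helper36.UT.Spec

set_option autoImplicit false

open Filter Polynomial FirstOrder FirstOrder.Language

namespace Pool.Agent.UnivT

/-- common denominator -/
lemma PLY_den (u : ℕ → ℤ) (L : List (ℚ × (ℕ → ℤ)))
    (h : ∀ z ∈ L, ∃ α γ : ℚ, ∀ᶠ H : ℕ in atTop, (z.2 H : ℚ) = α * u H + γ) :
    ∃ d : ℕ, 0 < d ∧ ∀ z ∈ L, ∃ (A : ℤ) (γ : ℚ), ∀ᶠ H : ℕ in atTop, (z.2 H : ℚ) = (A : ℚ) / d * u H + γ := by
  induction L with
  | nil => exact ⟨1, one_pos, fun z hz => absurd hz List.not_mem_nil⟩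
  | cons y L ih =>
    obtain ⟨d, hd, hL⟩ := ih fun z hz => h z (List.mem_cons_of_mem _ hz)
    obtain ⟨α, γ, hy⟩ := h y List.mem_cons_self
    have hdq : (d : ℚ) ≠ 0 := by exact_mod_cast hd.ne'
    have hαq : (α.den : ℚ) ≠ 0 := by exact_mod_cast α.den_nz
    refine ⟨d * α.den, Nat.mul_pos hd α.den_pos, ?_⟩
    intro z hz
    rcases List.mem_cons.mp hz with hz | hz
    · refine ⟨α.num * d, γ, ?_⟩
      rw [hz]
      filter_upwards [hy] with H hH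
      rw [hH]
      have e : α = (α.num : ℚ) / α.den := (Rat.num_div_den α).symm
      have e2 : (((α.num * d : ℤ) : ℚ)) / ((d * α.den : ℕ) : ℚ) = α := by
        push_cast
        rw [mul_comm (α.num : ℚ), mul_div_mul_left _ _ hdq]
        exact e.symm
      rw [e2]
    · obtain ⟨A, γ', hz'⟩ := hL z hz
      refine ⟨A * α.den, γ', ?_⟩
      filter_upwards [hz'] with H hH
      rw [hH]
      have e2 : (((A * α.den : ℤ) : ℚ)) / ((d * α.den : ℕ) : ℚ) = A / d := by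
        push_cast
        rw [mul_div_mul_right _ _ hαq]
      rw [e2]

/-- the exponents as linear functions of `w` -/
lemma PLY_lin (u w : ℕ → ℤ) (d r : ℕ) (hd : 0 < d) (hu : ∀ᶠ H : ℕ in atTop, u H = d * w H + r)
    (hw : Tendsto w atTop atTop) (e : ℕ → ℤ) (he : Tendsto e atTop atTop) (A : ℤ) (γ : ℚ)
    (h : ∀ᶠ H : ℕ in atTop, (e H : ℚ) = (A : ℚ) / d * u H + γ) :
    ∃ (B : ℕ) (c : ℤ), ∀ᶠ H : ℕ in atTop, e H = B * w H + c := by
  have hdq : (d : ℚ) ≠ 0 := by exact_mod_cast hd.ne'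
  have h1 : ∀ᶠ H : ℕ in atTop, (e H : ℚ) - A * w H = (A : ℚ) / d * r + γ := by
    filter_upwards [h, hu] with H h2 h3
    rw [h2, h3]
    push_cast
    field_simp
    ring
  obtain ⟨H0, hH0⟩ := h1.exists
  have h2 : ∀ᶠ H : ℕ in atTop, e H = A * w H + (e H0 - A * w H0) := by
    filter_upwards [h1] with H hH
    have h3 : (e H : ℚ) - A * w H = (e H0 : ℚ) - A * w H0 := hH.trans hH0.symm
    have h4 : e H - A * w H = e H0 - A * w H0 := by exact_mod_cast h3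
    linarith
  have hA : 0 ≤ A := by
    by_contra hneg
    obtain ⟨H, h3, h4, h5⟩ := (h2.and ((hw.eventually_ge_atTop 0).and
      (he.eventually_ge_atTop (e H0 - A * w H0 + 1)))).exists
    nlinarith
  obtain ⟨B, rfl⟩ := Int.eq_ofNat_of_zero_le hA
  exact ⟨B, _, h2⟩

/-- the polynomial -/
lemma PLY_pol (w : ℕ → ℤ) (l : List (ℚ × (ℕ → ℤ)))
    (h : ∀ z ∈ l, ∃ (B : ℕ) (c : ℤ), ∀ᶠ H : ℕ in atTop, z.2 H = B * w H + c) :
    ∃ P : ℚ[X], ∀ᶠ H : ℕ in atTop, ev l H = P.eval ((2 : ℚ) ^ (w H)) := by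
  induction l with
  | nil => exact ⟨0, Eventually.of_forall fun H => by rw [ev_nil, eval_zero]⟩
  | cons y l ih =>
    obtain ⟨P, hP⟩ := ih fun z hz => h z (List.mem_cons_of_mem _ hz)
    obtain ⟨B, c, hB⟩ := h y List.mem_cons_self
    refine ⟨C (y.1 * (2 : ℚ) ^ c) * X ^ B + P, ?_⟩
    filter_upwards [hP, hB] with H h1 h2
    rw [ev_cons, h1, h2, eval_add, eval_mul, eval_C, eval_pow, eval_X]
    have e : (2 : ℚ) ^ ((B : ℤ) * w H + c) = (2 : ℚ) ^ c * ((2 : ℚ) ^ (w H)) ^ B := by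
      rw [zpow_add₀ (by norm_num), mul_comm ((B : ℕ) : ℤ), zpow_mul, zpow_natCast]
      ring
    rw [e]
    ring

theorem PLY (hLGD : LGD_stmt) (hCOM : COM_stmt) (hMDL : MDL_stmt) : PLY_stmt := by
  intro k q1 l1 x q2 l2 y u hx hy hq1 hq2 hu hut hxy
  obtain ⟨hx1, hx2, hx3⟩ := hx
  obtain ⟨hy1, hy2, hy3⟩ := hy
  have hc0 : Lev k fun _ => 0 := (hLGD k).1 0
  have hNF : ∀ (q : ℚ) (l : List (ℚ × (ℕ → ℤ))), q ≠ 0 → (∀ x ∈ l, Lev k x.2 ∧ x.1 ≠ 0 ∧ Tendsto x.2 atTop atTop) →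
      l.Pairwise Far → NF (l ++ [(q, fun _ => 0)]) := by
    intro q l hq hl hp
    constructor
    · rw [List.pairwise_append]
      refine ⟨hp, List.pairwise_singleton _ _, ?_⟩
      intro a ha b hb
      rw [List.mem_singleton] at hb
      rw [hb]
      have h1 := (hl a ha).2.2
      unfold Far
      simpa using h1
    · intro a ha
      rcases List.mem_append.mp ha with ha | ha
      · exact (hl a ha).2.1
      · rw [List.mem_singleton] at ha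
        rw [ha]
        exact hq
  have hLev : ∀ (q : ℚ) (l : List (ℚ × (ℕ → ℤ))), (∀ x ∈ l, Lev k x.2 ∧ x.1 ≠ 0 ∧ Tendsto x.2 atTop atTop) →
      ∀ z ∈ l ++ [(q, fun _ => 0)], Lev k z.2 := by
    intro q l hl a ha
    rcases List.mem_append.mp ha with ha | ha
    · exact (hl a ha).1
    · rw [List.mem_singleton] at ha
      rw [ha]
      exact hc0
  have hev : ∀ (q : ℚ) (l : List (ℚ × (ℕ → ℤ))) (H : ℕ), ev (l ++ [(q, fun _ => 0)]) H = q + ev l H := by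
    intro q l H
    rw [ev_append, ev_cons, ev_nil]
    simp [add_comm]
  have hprod : ∀ᶠ H : ℕ in atTop, ev (l1 ++ [(q1, fun _ => 0)]) H * ev (l2 ++ [(q2, fun _ => 0)]) H = 1 + (2 : ℚ) ^ (u H) := by
    filter_upwards [hx3, hy3, hxy] with H h1 h2 h3
    rw [hev, hev, ← h1, ← h2, h3]
  have hcon : ∀ (q : ℚ) (l : List (ℚ × (ℕ → ℤ))), ∃ x ∈ l ++ [(q, fun _ => (0 : ℤ))], ∃ c : ℤ, ∀ᶠ H : ℕ in atTop, x.2 H = c := by
    intro q l
    exact ⟨(q, fun _ => 0), List.mem_append_right _ (List.mem_singleton.mpr rfl), 0, Eventually.of_forall fun H => rfl⟩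
  have hc1 := hCOM k _ _ u (hLev q1 l1 hx1) (hLev q2 l2 hy1) hu (hNF q1 l1 hq1 hx1 hx2) (hNF q2 l2 hq2 hy1 hy2)
    (by simp) (hcon q1 l1) hprod
  have hc2 := hCOM k _ _ u (hLev q2 l2 hy1) (hLev q1 l1 hx1) hu (hNF q2 l2 hq2 hy1 hy2) (hNF q1 l1 hq1 hx1 hx2)
    (by simp) (hcon q2 l2) (by
      filter_upwards [hprod] with H h1
      rw [mul_comm]
      exact h1)
  obtain ⟨d, hd, hden⟩ := PLY_den u (l1 ++ l2) (by
    intro z hz
    rcases List.mem_append.mp hz with hz | hz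
    · exact hc1 z (List.mem_append_left _ hz)
    · exact hc2 z (List.mem_append_left _ hz))
  obtain ⟨r0, hr0⟩ := hMDL k u hu d hd
  have hdz : (0 : ℤ) < d := by exact_mod_cast hd
  have hr0' : 0 ≤ r0 := by
    obtain ⟨H, hH⟩ := hr0.exists
    rw [← hH]
    exact Int.emod_nonneg _ hdz.ne'
  obtain ⟨r, rfl⟩ := Int.eq_ofNat_of_zero_le hr0'
  have huw : ∀ᶠ H : ℕ in atTop, u H = d * (u H / d) + r := by
    filter_upwards [hr0] with H hH
    have h1 := Int.mul_ediv_add_emod (u H) d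
    rw [hH] at h1
    exact h1.symm
  have hwt : Tendsto (fun H => u H / (d : ℤ)) atTop atTop := by
    rw [tendsto_atTop]
    intro b
    filter_upwards [hut.eventually_ge_atTop (b * d)] with H hH
    exact (Int.le_ediv_iff_mul_le hdz).mpr hH
  have hl1 : ∀ z ∈ l1, ∃ (B : ℕ) (c : ℤ), ∀ᶠ H : ℕ in atTop, z.2 H = B * (u H / (d : ℤ)) + c := by
    intro z hz
    obtain ⟨A, γ, h1⟩ := hden z (List.mem_append_left _ hz)
    exact PLY_lin u (fun H => u H / (d : ℤ)) d r hd huw hwt z.2 (hx1 z hz).2.2 A γ h1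
  have hl2 : ∀ z ∈ l2, ∃ (B : ℕ) (c : ℤ), ∀ᶠ H : ℕ in atTop, z.2 H = B * (u H / (d : ℤ)) + c := by
    intro z hz
    obtain ⟨A, γ, h1⟩ := hden z (List.mem_append_right _ hz)
    exact PLY_lin u (fun H => u H / (d : ℤ)) d r hd huw hwt z.2 (hy1 z hz).2.2 A γ h1
  obtain ⟨P, hP⟩ := PLY_pol (fun H => u H / (d : ℤ)) l1 hl1
  obtain ⟨Q, hQ⟩ := PLY_pol (fun H => u H / (d : ℤ)) l2 hl2
  have hP' : ∀ᶠ H : ℕ in atTop, (x H : ℚ) = (C q1 + P).eval ((2 : ℚ) ^ (u H / (d : ℤ))) := by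
    filter_upwards [hP, hx3] with H h1 h2
    rw [h2, h1, eval_add, eval_C]
  have hQ' : ∀ᶠ H : ℕ in atTop, (y H : ℚ) = (C q2 + Q).eval ((2 : ℚ) ^ (u H / (d : ℤ))) := by
    filter_upwards [hQ, hy3] with H h1 h2
    rw [h2, h1, eval_add, eval_C]
  refine ⟨d, r, fun H => u H / (d : ℤ), C q1 + P, C q2 + Q, hd, hwt, huw, ?_, hP', hQ'⟩
  apply Polynomial.eq_of_infinite_eval_eq
  apply Set.infinite_of_not_bddAbove
  rintro ⟨b, hb⟩
  obtain ⟨n, hn⟩ := pow_unbounded_of_one_lt b (by norm_num : (1 : ℚ) < 2)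
  obtain ⟨H, h1, h2, h3, h4, h5⟩ := (hP'.and (hQ'.and (hxy.and (huw.and (hwt.eventually_ge_atTop (n : ℤ)))))).exists
  have h6 : (2 : ℚ) ^ (u H / (d : ℤ)) ∈ {t : ℚ | ((C q1 + P) * (C q2 + Q)).eval t = (1 + C ((2 : ℚ) ^ r) * X ^ d).eval t} := by
    rw [Set.mem_setOf_eq, eval_mul, ← h1, ← h2, h3, eval_add, eval_one, eval_mul, eval_C, eval_pow, eval_X]
    have e : (2 : ℚ) ^ (u H) = (2 : ℚ) ^ r * ((2 : ℚ) ^ (u H / (d : ℤ))) ^ d := by
      conv_lhs => rw [h4]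
      rw [zpow_add₀ (by norm_num), mul_comm (d : ℤ), zpow_mul, zpow_natCast, zpow_natCast]
      ring
    rw [e]
  have h7 := hb h6
  have h8 : (2 : ℚ) ^ n ≤ (2 : ℚ) ^ (u H / (d : ℤ)) := by
    rw [← zpow_natCast]
    exact zpow_le_zpow_right₀ (by norm_num) h5
  linarith

end Pool.Agent.UnivT
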