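import Pool.Agent.helper36.UT.Spec

set_option autoImplicit false

open Filter Polynomial FirstOrder FirstOrder.Language

namespace Pool.Agent.UnivT

lemma POW_zpow (n : ℤ) (hn : 0 ≤ n) : ((2 : ℤ) ^ n.toNat : ℤ) = ((2 : ℚ) ^ n : ℚ) := by
  obtain ⟨m, rfl⟩ := Int.eq_ofNat_of_zero_le hn
  rw [Int.toNat_natCast, zpow_natCast]
  push_cast
  rfl

theorem POW (hLGD : LGD_stmt) : POW_stmt := by
  intro k f hf
  obtain ⟨hc, -, -, htri⟩ := hLGD k
  rcases htri f hf with ⟨c, h⟩ | h | h
  · refine ⟨[((2 : ℚ) ^ c.toNat, fun _ => 0)], ?_, ?_⟩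
    · intro x hx
      rw [List.mem_singleton] at hx
      rw [hx]
      exact hc 0
    · filter_upwards [h] with H hH
      rw [ev_cons, ev_nil, hH]
      push_cast
      simp
  · refine ⟨[(1, f)], ?_, ?_⟩
    · intro x hx
      rw [List.mem_singleton] at hx
      rw [hx]
      exact hf
    · filter_upwards [h.eventually_ge_atTop 0] with H hH
      rw [ev_cons, ev_nil, one_mul, add_zero]
      exact POW_zpow _ hH
  · refine ⟨[(1, fun _ => 0)], ?_, ?_⟩
    · intro x hx
      rw [List.mem_singleton] at hx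
      rw [hx]
      exact hc 0
    · filter_upwards [h.eventually_le_atBot 0] with H hH
      rw [ev_cons, ev_nil, Int.toNat_of_nonpos hH]
      simp

end Pool.Agent.UnivT
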