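import Pool.Agent.helper36.UT.Spec

set_option autoImplicit false

open Filter Polynomial FirstOrder FirstOrder.Language

namespace Pool.Agent.UnivT

theorem PWM (hPER : PER_stmt) : PWM_stmt := by
  intro f hf hmod c hc
  obtain ⟨T, A, hT, -, hper⟩ := hPER c hc
  obtain ⟨r, hr⟩ := hmod T hT
  have hev : ∀ᶠ H : ℕ in atTop, f H % T = r ∧ (A : ℤ) ≤ f H := hr.and (hf.eventually_ge_atTop _)
  obtain ⟨H0, h01, h02⟩ := hev.exists
  refine ⟨(2 : ℤ) ^ (f H0).toNat % c, ?_⟩
  filter_upwards [hev] with H hH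
  have h1 : (f H).toNat % T = (f H0).toNat % T := by
    have h2 : (((f H).toNat % T : ℕ) : ℤ) = (((f H0).toNat % T : ℕ) : ℤ) := by
      push_cast
      rw [Int.toNat_of_nonneg (by omega), Int.toNat_of_nonneg (by omega), hH.1, h01]
    exact_mod_cast h2
  have h3 := hper (f H).toNat (f H0).toNat (by omega) (by omega) h1
  exact_mod_cast h3

end Pool.Agent.UnivT
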