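import Pool.Agent.helper36.UT.Spec

set_option autoImplicit false

open Filter Polynomial FirstOrder FirstOrder.Language

namespace Pool.Agent.UnivT

theorem TWM (hTWA : TWA_stmt) (hPER : PER_stmt) : TWM_stmt := by
  intro c
  induction c using Nat.strong_induction_on with
  | _ c ih =>
    intro hc
    by_cases h1 : c = 1
    · subst h1
      exact ⟨0, Eventually.of_forall fun h => Nat.mod_one _⟩
    · obtain ⟨T, A, hT, hTc, hper⟩ := hPER c hc
      have hTc' : T < c := by
        rcases hTc with h | h
        · exact h
        · exact absurd h h1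
      obtain ⟨r, hr⟩ := ih T hTc' hT
      obtain ⟨N, hN⟩ := eventually_atTop.mp hr
      refine ⟨2 ^ tow (max N A) % c, ?_⟩
      rw [eventually_atTop]
      refine ⟨max N A + 1, ?_⟩
      intro h hh
      obtain ⟨g, rfl⟩ : ∃ g, h = g + 1 := ⟨h - 1, by omega⟩
      have hg : max N A ≤ g := by omega
      have hg1 : N ≤ g := le_trans (le_max_left _ _) hg
      have hA1 := hTWA.2.1 g
      have hA2 := hTWA.2.1 (max N A)
      have hA3 : A ≤ max N A := le_max_right _ _
      have e : tow (g + 1) = 2 ^ tow g := rfl
      rw [e]
      apply hper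
      · omega
      · omega
      · rw [hN g hg1, hN (max N A) (le_max_left _ _)]

end Pool.Agent.UnivT
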